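import Pool.Agent.Q35.TB.Stm
import Pool.Agent.Q35.TT.TwistB
import Pool.Agent.Q53.TT.NAR

set_option autoImplicit false

/-! # Project TB, job LBU: the twisted bounds at the nonarchimedean places, uniform -/

open Pool.Agent.Y720.MZ Height AdmissibleAbsValues Pool.Agent.Q79.TT

namespace Pool.Agent.Q210.TB

open Pool.Agent.Q35.TT Pool.Agent.Q35.TB

/-- The bound for twists follows from the bound for an algebraically closed extension. -/
theorem lbw_of {K Ω : Type} [Field K] [CharZero K] [Field Ω] [IsAlgClosed Ω] (φ : K →+* Ω)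
    (v : AbsoluteValue K ℝ) (w : AbsoluteValue Ω ℝ) (hw : ∀ x, w (φ x) = v x) (h3 : S_TRN)
    {A B θ : ℝ} {n : ℕ} (hB : ∀ a b c x y : Ω, w a ≤ A → w b ≤ A → w c ≤ A → dsc a b c ≠ 0 →
      TorP a b c x y n → w x ≤ B * θ) : LBW v A B θ n := by
  intro a b c x y d ha hb hc hd hd0 ht
  have _ : CharZero Ω := charZero_of_injective_ringHom φ.injective
  have t2 := torP_map φ ht
  obtain ⟨u, hu⟩ := IsAlgClosed.exists_pow_nat_eq (φ d) (n := 2) (by norm_num)
  have hφd : φ d ≠ 0 := (map_ne_zero φ).2 hd0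
  have hu0 : u ≠ 0 := by
    rintro rfl
    rw [zero_pow (by norm_num)] at hu
    exact hφd hu.symm
  rw [map_mul, map_mul, map_mul, map_pow, map_pow] at t2
  have hdw : dsc (φ d * φ a) (φ d ^ 2 * φ b) (φ d ^ 3 * φ c) ≠ 0 := by
    have e : dsc (φ d * φ a) (φ d ^ 2 * φ b) (φ d ^ 3 * φ c) = φ (d ^ 6 * dsc a b c) := by
      simp only [dsc, map_mul, map_pow, map_sub, map_add, map_ofNat]; ring
    rw [e]
    intro h
    exact mul_ne_zero (pow_ne_zero _ hd0) hd (φ.injective (by rw [h, map_zero]))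
  have t3 := h3 Ω _ _ _ _ _ u 0 n hu0 hdw t2
  have f1 : (φ d * φ a + 3 * 0) / u ^ 2 = φ a := by
    rw [← hu]; field_simp; ring
  have f2 : (φ d ^ 2 * φ b + 2 * 0 * (φ d * φ a) + 3 * 0 ^ 2) / u ^ 4 = φ b := by
    rw [← hu]; field_simp; ring
  have f3 : (φ d ^ 3 * φ c + 0 * (φ d ^ 2 * φ b) + 0 ^ 2 * (φ d * φ a) + 0 ^ 3) / u ^ 6 = φ c := by
    rw [← hu]; field_simp; ring
  rw [f1, f2, f3, hu, sub_zero] at t3
  have hdw' : dsc (φ a) (φ b) (φ c) ≠ 0 := by
    have e : dsc (φ a) (φ b) (φ c) = φ (dsc a b c) := by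
      simp only [dsc, map_mul, map_pow, map_sub, map_add, map_ofNat]
    rw [e]
    exact (map_ne_zero φ).2 hd
  have t4 := hB (φ a) (φ b) (φ c) _ _ (by rw [hw]; exact ha) (by rw [hw]; exact hb)
    (by rw [hw]; exact hc) hdw' t3
  rw [map_div₀, hw, hw] at t4
  exact (div_le_iff₀ (v.pos hd0)).1 t4

/-- integers whose prime factors are units are units -/
theorem unit_of_primes {K : Type} [Field K] (v : AbsoluteValue K ℝ) (n : ℕ) (hn : n ≠ 0)
    (h : ∀ p : ℕ, p.Prime → p ∣ n → v (p : K) = 1) : v (n : K) = 1 := by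
  induction n using induction_on_primes with
  | zero => exact absurd rfl hn
  | one => rw [Nat.cast_one, map_one]
  | prime_mul p a hp ih =>
    have ha : a ≠ 0 := fun h => hn (by rw [h, mul_zero])
    rw [Nat.cast_mul, map_mul, h p hp (dvd_mul_right p a), one_mul]
    exact ih ha fun q hq hd => h q hq (dvd_mul_of_dvd_right hd p)

/-- LBU. -/
theorem lbu (h1 : S_PRM) (h2 : S_EXT) (h3 : S_TRN) : S_LBU := by
  intro K _ _ v hv n hn
  obtain ⟨Ω, iF, iA, w, φ, hw, hwφ⟩ := h2 K v hv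
  have _ : CharZero Ω := charZero_of_injective_ringHom φ.injective
  have hcast : ∀ m : ℕ, w (m : Ω) = v (m : K) := fun m => by rw [← map_natCast φ, hwφ]
  have hn0 : (n : K) ≠ 0 := Nat.cast_ne_zero.2 hn
  have hvn : 0 < v (n : K) := v.pos hn0
  refine ⟨fun hv2 hv3 => ?_, fun p hp hvp u hu => ?_⟩
  · refine lbw_of φ v w hwφ h3 fun a b c x y ha hb hc _ ht => ?_
    rw [one_mul]
    by_cases hn1 : v (n : K) = 1
    · rw [hn1, inv_one]
      have e2 : w 2 = 1 := by
        have := hcast 2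
        rw [Nat.cast_ofNat, Nat.cast_ofNat] at this
        rw [this]; exact hv2
      have e3 : w 3 = 1 := by
        have := hcast 3
        rw [Nat.cast_ofNat, Nat.cast_ofNat] at this
        rw [this]; exact hv3
      exact h1 Ω w hw e2 e3 a b c x y ha hb hc n (by rw [hcast]; exact hn1) ht
    · have hex : ∃ p : ℕ, p.Prime ∧ p ∣ n ∧ v (p : K) ≠ 1 := by
        by_contra hcon
        push Not at hcon
        exact hn1 (unit_of_primes v n hn hcon)
      obtain ⟨p, hp, hpn, hp1⟩ := hex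
      have hple : ∀ m : ℕ, v (m : K) ≤ 1 := fun m => Pool.Agent.Y720.MZ.na_nat hv m
      have hplt : v (p : K) < 1 := lt_of_le_of_ne (hple p) hp1
      have hp0 : 0 < v (p : K) := v.pos (Nat.cast_ne_zero.2 hp.ne_zero)
      have h5 := Pool.Agent.Q53.TT.NAR.int_bound hw hp (by rw [hcast]; exact hplt) ha hb hc hn ht
      rw [hcast] at h5
      have h6 : v (n : K) ≤ v (p : K) := by
        obtain ⟨m, hm⟩ := hpn
        rw [hm, Nat.cast_mul, map_mul]
        exact mul_le_of_le_one_right (v.nonneg _) (hple m)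
      calc w x ≤ (v (p : K))⁻¹ := by
            rw [← one_div, le_div_iff₀ hp0]
            exact h5
        _ ≤ (v (n : K))⁻¹ := inv_anti₀ hvn h6
  · refine lbw_of φ v w hwφ h3 fun a b c x y ha hb hc hd ht => ?_
    have hp0 : 0 < v (p : K) := v.pos (Nat.cast_ne_zero.2 hp.ne_zero)
    have hu0 : u ≠ 0 := by
      rintro rfl
      rw [map_zero] at hu
      linarith
    have hφu : φ u ≠ 0 := (map_ne_zero φ).2 hu0
    have hwu : w (φ u) = v u := hwφ u
    have hupos : 0 < v u := v.pos hu0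
    have t := h3 Ω a b c x y (φ u) 0 n hφu hd ht
    have e1 : (a + 3 * 0) / φ u ^ 2 = a / φ u ^ 2 := by ring
    have e2 : (b + 2 * 0 * a + 3 * 0 ^ 2) / φ u ^ 4 = b / φ u ^ 4 := by ring
    have e3 : (c + 0 * b + 0 ^ 2 * a + 0 ^ 3) / φ u ^ 6 = c / φ u ^ 6 := by ring
    rw [e1, e2, e3, sub_zero] at t
    have hv1 : w (a / φ u ^ 2) ≤ 1 := by
      rw [map_div₀, map_pow, hwu, div_le_one (by positivity)]
      exact ha.trans (le_self_pow₀ hu two_ne_zero)
    have hv2 : w (b / φ u ^ 4) ≤ 1 := by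
      rw [map_div₀, map_pow, hwu, div_le_one (by positivity)]
      exact hb.trans (le_self_pow₀ hu (by norm_num))
    have hv3 : w (c / φ u ^ 6) ≤ 1 := by
      rw [map_div₀, map_pow, hwu, div_le_one (by positivity)]
      exact hc.trans (le_self_pow₀ hu (by norm_num))
    have h5 := Pool.Agent.Q53.TT.NAR.int_bound hw hp (by rw [hcast]; exact hvp) hv1 hv2 hv3 hn t
    rw [map_div₀, map_pow, hwu, hcast, div_mul_eq_mul_div, div_le_one (by positivity)] at h5
    rw [mul_one, le_div_iff₀ hp0]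
    exact h5

end Pool.Agent.Q210.TB
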